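import Mathlib
set_option autoImplicit false

namespace Pool.Agent.Q280.Orb
open Polynomial

/-- the proper colourings of a graph with `q` colours -/
abbrev Col {V : Type} (Γ : SimpleGraph V) (q : ℕ) : Type :=
  {c : V → Fin q // ∀ a b, Γ.Adj a b → c a ≠ c b}

/-- `p` is the chromatic polynomial of `Γ` -/
def IsChrom {V : Type} (Γ : SimpleGraph V) (p : ℝ[X]) : Prop :=
  ∀ q : ℕ, 0 < q → p.eval (q : ℝ) = (Nat.card (Col Γ q) : ℝ)

/-- two proper colourings are equivalent if an element of `G` carries one to the other -/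
def orbitSetoid {V : Type} (Γ : SimpleGraph V) (G : Subgroup (Γ ≃g Γ)) (q : ℕ) :
    Setoid (Col Γ q) where
  r c c' := ∃ g ∈ G, ∀ v, c'.1 v = c.1 (g v)
  iseqv := by
    refine ⟨fun c => ⟨1, G.one_mem, fun v => rfl⟩, ?_, ?_⟩
    · rintro c c' ⟨g, hg, h⟩
      refine ⟨g⁻¹, G.inv_mem hg, fun v => ?_⟩
      rw [h, RelIso.apply_inv_self]
    · rintro a b c ⟨g, hg, h⟩ ⟨g', hg', h'⟩
      refine ⟨g * g', G.mul_mem hg hg', fun v => ?_⟩
      rw [h', h]
      rfl

/-- `o` is the orbital chromatic polynomial of `(Γ, G)` -/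
def IsOrbChrom {V : Type} (Γ : SimpleGraph V) (G : Subgroup (Γ ≃g Γ)) (o : ℝ[X]) : Prop :=
  ∀ q : ℕ, 0 < q → o.eval (q : ℝ) = (Nat.card (Quotient (orbitSetoid Γ G q)) : ℝ)

end Pool.Agent.Q280.Orb
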