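import Mathlib
set_option autoImplicit false

/-! Functions fixed by a permutation, and the alternating sum. -/

namespace Pool.Agent.Q280.Orb
open Polynomial Equiv Equiv.Perm

/-- number of cycles (fixed points included) -/
noncomputable def cyc {n : ℕ} (σ : Perm (Fin n)) : ℕ := Nat.card (Quotient (SameCycle.setoid σ))

/-- functions fixed by `σ` -/
abbrev FixF {n : ℕ} (σ : Perm (Fin n)) (q : ℕ) : Type := {f : Fin n → Fin q // ∀ j, f (σ j) = f j}

theorem fix_zpow {n q : ℕ} (σ : Perm (Fin n)) (f : Fin n → Fin q) (h : ∀ j, f (σ j) = f j) :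
    ∀ (k : ℤ) (j : Fin n), f ((σ ^ k) j) = f j := by
  intro k
  induction k using Int.induction_on with
  | zero => intro j; simp
  | succ k ih =>
    intro j
    rw [zpow_add_one, Perm.mul_apply, ih, h]
  | pred k ih =>
    intro j
    rw [zpow_sub_one, Perm.mul_apply, ih]
    have := h (σ⁻¹ j)
    rw [show σ (σ⁻¹ j) = j from σ.apply_symm_apply j] at this
    exact this.symm

theorem card_FixF {n : ℕ} (σ : Perm (Fin n)) (q : ℕ) : Nat.card (FixF σ q) = q ^ cyc σ := by
  classical
  have e : FixF σ q ≃ (Quotient (SameCycle.setoid σ) → Fin q) :=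
    { toFun := fun f => Quotient.lift f.1 (by
        rintro a b ⟨k, rfl⟩
        exact (fix_zpow σ f.1 f.2 k a).symm)
      invFun := fun g => ⟨fun j => g (Quotient.mk _ j), fun j => by
        have h : SameCycle σ (σ j) j := ⟨-1, by simp⟩
        exact congrArg g (Quotient.sound h)⟩
      left_inv := fun f => by
        apply Subtype.ext
        funext j
        rfl
      right_inv := fun g => by
        funext x
        induction x using Quotient.inductionOn with
        | h j => rfl }
  rw [Nat.card_congr e, Nat.card_fun, Nat.card_eq_fintype_card, Fintype.card_fin]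
  rfl

/-- `∑_{sgn σ = h} X^{cyc σ}` -/
noncomputable def SP (n : ℕ) (h : ℤˣ) : ℝ[X] :=
  ∑ σ ∈ Finset.univ.filter (fun σ : Perm (Fin n) => sign σ = h), X ^ cyc σ

theorem SP_eval_nat (n : ℕ) (h : ℤˣ) (q : ℕ) : (SP n h).eval (q : ℝ) =
    ∑ σ ∈ Finset.univ.filter (fun σ : Perm (Fin n) => sign σ = h), (Nat.card (FixF σ q) : ℝ) := by
  unfold SP
  rw [eval_finsetSum]
  refine Finset.sum_congr rfl fun σ _ => ?_
  rw [card_FixF, eval_pow, eval_X]
  push_cast
  rfl

theorem stab_sum {n q : ℕ} (f : Fin n → Fin q) :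
    (∑ σ ∈ Finset.univ.filter (fun σ : Perm (Fin n) => ∀ j, f (σ j) = f j), ((sign σ : ℤˣ) : ℤ)) =
      if Function.Injective f then 1 else 0 := by
  classical
  split_ifs with hf
  · have : (Finset.univ.filter (fun σ : Perm (Fin n) => ∀ j, f (σ j) = f j)) = {1} := by
      ext σ
      simp only [Finset.mem_filter, Finset.mem_univ, true_and, Finset.mem_singleton]
      constructor
      · intro h
        ext j
        rw [hf (h j)]
        rfl
      · rintro rfl
        intro j; rfl
    rw [this, Finset.sum_singleton, Perm.sign_one]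
    rfl
  · simp only [Function.Injective, not_forall] at hf
    obtain ⟨a, b, hab, hne⟩ := hf
    have hsw : ∀ x, f (swap a b x) = f x := by
      intro x
      by_cases h1 : x = a
      · subst h1; rw [swap_apply_left, hab]
      · by_cases h2 : x = b
        · subst h2; rw [swap_apply_right, hab]
        · rw [swap_apply_of_ne_of_ne h1 h2]
    refine Finset.sum_involution (fun σ _ => swap a b * σ) ?_ ?_ ?_ ?_
    · intro σ _
      rw [Perm.sign_mul, sign_swap hne]
      push_cast
      ring
    · intro σ _ _ h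
      have h2 : swap a b = 1 := by
        have := congrArg (fun x => x * σ⁻¹) h
        simpa [mul_assoc] using this
      rw [swap_eq_one_iff] at h2
      exact hne h2
    · intro σ h
      rw [Finset.mem_filter] at h ⊢
      refine ⟨Finset.mem_univ _, fun j => ?_⟩
      rw [Perm.mul_apply, hsw, h.2]
    · intro σ _
      rw [← mul_assoc, swap_mul_self, one_mul]

theorem SP_sub (n : ℕ) : SP n 1 - SP n (-1) = descPochhammer ℝ n := by
  classical
  refine Polynomial.eq_of_infinite_eval_eq _ _ ?_
  refine Set.Infinite.mono (s := Set.range (fun q : ℕ => (q : ℝ))) ?_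
    (Set.infinite_range_of_injective Nat.cast_injective)
  rintro _ ⟨q, rfl⟩
  show (SP n 1 - SP n (-1)).eval (q : ℝ) = (descPochhammer ℝ n).eval (q : ℝ)
  rw [eval_sub, SP_eval_nat, SP_eval_nat, descPochhammer_eval_eq_descFactorial]
  have h1 : ∀ h : ℤˣ, ∑ σ ∈ Finset.univ.filter (fun σ : Perm (Fin n) => sign σ = h),
      (Nat.card (FixF σ q) : ℝ) = ∑ σ : Perm (Fin n), if sign σ = h then (Nat.card (FixF σ q) : ℝ) else 0 := by
    intro h
    rw [Finset.sum_filter]
  rw [h1, h1, ← Finset.sum_sub_distrib]
  have h2 : ∀ σ : Perm (Fin n), (if sign σ = 1 then (Nat.card (FixF σ q) : ℝ) else 0) -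
      (if sign σ = -1 then (Nat.card (FixF σ q) : ℝ) else 0) =
      ∑ f : Fin n → Fin q, if (∀ j, f (σ j) = f j) then (((sign σ : ℤˣ) : ℤ) : ℝ) else 0 := by
    intro σ
    have h3 : (Nat.card (FixF σ q) : ℝ) = ∑ f : Fin n → Fin q, if (∀ j, f (σ j) = f j) then (1:ℝ) else 0 := by
      rw [Nat.card_eq_fintype_card, Fintype.card_subtype, Finset.card_filter]
      push_cast
      rfl
    rcases Int.units_eq_one_or (sign σ) with h | h
    · rw [h, if_pos rfl, if_neg (by decide), sub_zero, h3]
      simp
    · rw [h, if_neg (by decide), if_pos rfl, zero_sub, h3, ← Finset.sum_neg_distrib]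
      refine Finset.sum_congr rfl fun f _ => ?_
      split_ifs <;> simp
  rw [Finset.sum_congr rfl fun σ _ => h2 σ, Finset.sum_comm]
  have h4 : ∀ f : Fin n → Fin q, (∑ σ : Perm (Fin n), if (∀ j, f (σ j) = f j) then (((sign σ : ℤˣ) : ℤ) : ℝ) else 0) =
      if Function.Injective f then 1 else 0 := by
    intro f
    have := stab_sum f
    rw [Finset.sum_filter] at this
    have h5 := congrArg (fun z : ℤ => (z : ℝ)) this
    push_cast at h5
    exact h5
  rw [Finset.sum_congr rfl fun f _ => h4 f]
  have h6 : (∑ f : Fin n → Fin q, if Function.Injective f then (1:ℝ) else 0) =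
      (Fintype.card {f : Fin n → Fin q // Function.Injective f} : ℝ) := by
    rw [Fintype.card_subtype, Finset.card_filter]
    push_cast
    rfl
  rw [h6]
  have h7 : Fintype.card {f : Fin n → Fin q // Function.Injective f} = Fintype.card (Fin n ↪ Fin q) :=
    Fintype.card_congr (Equiv.subtypeInjectiveEquivEmbedding _ _)
  rw [h7, Fintype.card_embedding_eq, Fintype.card_fin, Fintype.card_fin]

theorem SP_pos {n : ℕ} {x : ℝ} (hx : 0 < x) : 0 < (SP n 1).eval x := by
  unfold SP
  rw [eval_finsetSum]
  refine Finset.sum_pos (fun σ _ => ?_) ⟨1, by simp⟩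
  rw [eval_pow, eval_X]
  positivity

theorem SP_lt {n : ℕ} {x : ℝ} (hneg : (descPochhammer ℝ n).eval x < 0) :
    (SP n 1).eval x < (SP n (-1)).eval x := by
  have := congrArg (eval x) (SP_sub n)
  rw [eval_sub] at this
  linarith

end Pool.Agent.Q280.Orb
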