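import Mathlib
import Pool.Agent.Q280.Orb.Defs
import Pool.Agent.Q280.Orb.Perm
set_option autoImplicit false

/-! Adding isolated vertices on which permutations of a prescribed sign act. -/

namespace Pool.Agent.Q280.Orb
open Polynomial Equiv Equiv.Perm

variable {V0 : Type}

/-- `Γ0` together with `R * n` isolated vertices -/
def Big (Γ0 : SimpleGraph V0) (R n : ℕ) : SimpleGraph (V0 ⊕ (Fin R × Fin n)) where
  Adj x y := match x, y with
    | Sum.inl a, Sum.inl b => Γ0.Adj a b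
    | _, _ => False
  symm := ⟨by
    rintro (a | a) (b | b) h
    · exact Γ0.adj_symm h
    · exact h
    · exact h
    · exact h⟩
  loopless := ⟨by
    rintro (a | a) h
    · exact Γ0.loopless.irrefl a h
    · exact h⟩

/-- the sign compatible group -/
def KK (R n : ℕ) : Subgroup (ℤˣ × (Fin R → Perm (Fin n))) where
  carrier := {k | ∀ i, sign (k.2 i) = k.1}
  mul_mem' := by
    intro a b ha hb i
    show sign (a.2 i * b.2 i) = a.1 * b.1
    rw [Perm.sign_mul, ha i, hb i]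
  one_mem' := by
    intro i
    show sign (1 : Perm (Fin n)) = 1
    exact Perm.sign_one
  inv_mem' := by
    intro a ha i
    show sign (a.2 i)⁻¹ = a.1⁻¹
    rw [Perm.sign_inv, ha i]
    rcases Int.units_eq_one_or a.1 with h | h <;> rw [h] <;> rfl

/-- action of a sign on `Γ0` through the involution `τ` -/
def act0 (τ : V0 → V0) (h : ℤˣ) (v : V0) : V0 := if h = 1 then v else τ v

theorem act0_mul (τ : V0 → V0) (hτ : ∀ v, τ (τ v) = v) (a b : ℤˣ) (v : V0) :
    act0 τ (a * b) v = act0 τ a (act0 τ b v) := by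
  unfold act0
  rcases Int.units_eq_one_or a with h | h <;> rcases Int.units_eq_one_or b with h' | h' <;>
    subst h <;> subst h' <;> simp [hτ]

/-- the point map -/
def pm (τ : V0 → V0) {R n : ℕ} (k : ℤˣ × (Fin R → Perm (Fin n))) :
    V0 ⊕ (Fin R × Fin n) → V0 ⊕ (Fin R × Fin n)
  | Sum.inl v => Sum.inl (act0 τ k.1 v)
  | Sum.inr x => Sum.inr (x.1, k.2 x.1 x.2)

theorem pm_mul (τ : V0 → V0) (hτ : ∀ v, τ (τ v) = v) {R n : ℕ} (a b : ℤˣ × (Fin R → Perm (Fin n)))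
    (x : V0 ⊕ (Fin R × Fin n)) : pm τ (a * b) x = pm τ a (pm τ b x) := by
  rcases x with v | x
  · exact congrArg Sum.inl (act0_mul τ hτ a.1 b.1 v)
  · rfl

theorem pm_one (τ : V0 → V0) {R n : ℕ} (x : V0 ⊕ (Fin R × Fin n)) :
    pm τ (1 : ℤˣ × (Fin R → Perm (Fin n))) x = x := by
  rcases x with v | x
  · exact congrArg Sum.inl (if_pos rfl)
  · rfl

theorem pm_adj (Γ0 : SimpleGraph V0) (τ : V0 → V0) (hadj : ∀ a b, Γ0.Adj (τ a) (τ b) ↔ Γ0.Adj a b)
    {R n : ℕ} (k : ℤˣ × (Fin R → Perm (Fin n))) (x y : V0 ⊕ (Fin R × Fin n)) :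
    (Big Γ0 R n).Adj (pm τ k x) (pm τ k y) ↔ (Big Γ0 R n).Adj x y := by
  rcases x with v | x <;> rcases y with w | y
  · show Γ0.Adj (act0 τ k.1 v) (act0 τ k.1 w) ↔ Γ0.Adj v w
    unfold act0
    split_ifs
    · rfl
    · exact hadj v w
  · rfl
  · rfl
  · rfl

/-- the homomorphism into the automorphism group -/
def hom (Γ0 : SimpleGraph V0) (τ : V0 → V0) (hτ : ∀ v, τ (τ v) = v)
    (hadj : ∀ a b, Γ0.Adj (τ a) (τ b) ↔ Γ0.Adj a b) (R n : ℕ) :
    (ℤˣ × (Fin R → Perm (Fin n))) →* (Big Γ0 R n ≃g Big Γ0 R n) where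
  toFun k :=
    { toFun := pm τ k
      invFun := pm τ k⁻¹
      left_inv := fun x => by rw [← pm_mul τ hτ, inv_mul_cancel, pm_one]
      right_inv := fun x => by rw [← pm_mul τ hτ, mul_inv_cancel, pm_one]
      map_rel_iff' := fun {x y} => pm_adj Γ0 τ hadj k x y }
  map_one' := by
    ext x
    exact pm_one τ x
  map_mul' a b := by
    ext x
    exact pm_mul τ hτ a b x

theorem hom_apply (Γ0 : SimpleGraph V0) (τ : V0 → V0) (hτ : ∀ v, τ (τ v) = v)
    (hadj : ∀ a b, Γ0.Adj (τ a) (τ b) ↔ Γ0.Adj a b) (R n : ℕ) (k) (x) :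
    hom Γ0 τ hτ hadj R n k x = pm τ k x := rfl

/-- the group of the theorem -/
def GG (Γ0 : SimpleGraph V0) (τ : V0 → V0) (hτ : ∀ v, τ (τ v) = v)
    (hadj : ∀ a b, Γ0.Adj (τ a) (τ b) ↔ Γ0.Adj a b) (R n : ℕ) :
    Subgroup (Big Γ0 R n ≃g Big Γ0 R n) := (KK R n).map (hom Γ0 τ hτ hadj R n)

section
variable (Γ0 : SimpleGraph V0) (τ : V0 → V0) (hτ : ∀ v, τ (τ v) = v)
  (hadj : ∀ a b, Γ0.Adj (τ a) (τ b) ↔ Γ0.Adj a b) (R n q : ℕ)

/-- action of `KK` on colourings -/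
@[reducible] def actK : MulAction (KK R n) (Col (Big Γ0 R n) q) where
  smul k c := ⟨fun v => c.1 (pm τ (k⁻¹ : KK R n).1 v), fun a b h => c.2 _ _ ((pm_adj Γ0 τ hadj _ a b).2 h)⟩
  one_smul c := by
    apply Subtype.ext
    funext v
    show c.1 (pm τ ((1 : KK R n)⁻¹ : KK R n).1 v) = c.1 v
    rw [inv_one]
    exact congrArg c.1 (pm_one τ v)
  mul_smul a b c := by
    apply Subtype.ext
    funext v
    show c.1 (pm τ ((a * b)⁻¹ : KK R n).1 v) = c.1 (pm τ (b⁻¹ : KK R n).1 (pm τ (a⁻¹ : KK R n).1 v))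
    rw [mul_inv_rev, ← pm_mul τ hτ]
    rfl

/-- the colourings fixed by `k` -/
abbrev FixC (k : ℤˣ × (Fin R → Perm (Fin n))) : Type :=
  {c : Col (Big Γ0 R n) q // ∀ v, c.1 (pm τ k v) = c.1 v}

/-- the colourings of `Γ0` fixed by a sign -/
abbrev Fix0 (h : ℤˣ) : Type := {c : Col Γ0 q // ∀ v, c.1 (act0 τ h v) = c.1 v}

/-- splitting of the fixed colourings -/
def splitFix (k : ℤˣ × (Fin R → Perm (Fin n))) :
    FixC Γ0 τ R n q k ≃ Fix0 Γ0 τ q k.1 × ((i : Fin R) → FixF (k.2 i) q) where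
  toFun c := (⟨⟨fun v => c.1.1 (Sum.inl v), fun a b h => c.1.2 _ _ h⟩, fun v => c.2 (Sum.inl v)⟩,
    fun i => ⟨fun j => c.1.1 (Sum.inr (i, j)), fun j => c.2 (Sum.inr (i, j))⟩)
  invFun c := ⟨⟨Sum.elim (fun v => c.1.1.1 v) (fun x => (c.2 x.1).1 x.2), by
      rintro (a | a) (b | b) h
      · exact c.1.1.2 a b h
      · exact h.elim
      · exact h.elim
      · exact h.elim⟩, by
      rintro (v | x)
      · exact c.1.2 v
      · exact (c.2 x.1).2 x.2⟩
  left_inv c := by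
    apply Subtype.ext
    apply Subtype.ext
    funext v
    rcases v with v | v <;> rfl
  right_inv c := by
    rcases c with ⟨⟨⟨c, h1⟩, h2⟩, f⟩
    rfl

theorem card_FixC (k : ℤˣ × (Fin R → Perm (Fin n))) : Nat.card (FixC Γ0 τ R n q k) =
    Nat.card (Fix0 Γ0 τ q k.1) * ∏ i, Nat.card (FixF (k.2 i) q) := by
  rw [Nat.card_congr (splitFix Γ0 τ R n q k), Nat.card_prod, Nat.card_pi]

theorem orbit_card [Fintype V0] : (Nat.card (Quotient (orbitSetoid (Big Γ0 R n) (GG Γ0 τ hτ hadj R n) q)) : ℝ) *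
    Nat.card (KK R n) = ∑ h : ℤˣ, (Nat.card (Fix0 Γ0 τ q h) : ℝ) * ((SP n h).eval (q : ℝ)) ^ R := by
  classical
  let _ := actK Γ0 τ hτ hadj R n q
  let _ : Fintype (Col (Big Γ0 R n) q) := Fintype.ofFinite _
  let _ : ∀ k : KK R n, Fintype (MulAction.fixedBy (Col (Big Γ0 R n) q) k) := fun k => Fintype.ofFinite _
  let _ : Fintype (KK R n) := Fintype.ofFinite _
  let _ : Fintype (Quotient (MulAction.orbitRel (KK R n) (Col (Big Γ0 R n) q))) := Fintype.ofFinite _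
  have hB := MulAction.sum_card_fixedBy_eq_card_orbits_mul_card_group (KK R n) (Col (Big Γ0 R n) q)
  -- orbits
  have e : Quotient (orbitSetoid (Big Γ0 R n) (GG Γ0 τ hτ hadj R n) q) ≃
      Quotient (MulAction.orbitRel (KK R n) (Col (Big Γ0 R n) q)) := by
    refine Quotient.congr (Equiv.refl _) fun c c' => ?_
    show (∃ g ∈ GG Γ0 τ hτ hadj R n, ∀ v, c'.1 v = c.1 (g v)) ↔ ∃ k : KK R n, k • c' = c
    constructor
    · rintro ⟨g, ⟨k, hk, rfl⟩, h⟩
      refine ⟨⟨k, hk⟩, ?_⟩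
      apply Subtype.ext
      funext v
      show c'.1 (pm τ ((⟨k, hk⟩ : KK R n)⁻¹ : KK R n).1 v) = c.1 v
      rw [h, hom_apply, ← pm_mul τ hτ]
      show c.1 (pm τ (k * k⁻¹) v) = c.1 v
      rw [mul_inv_cancel, pm_one]
    · rintro ⟨k, rfl⟩
      refine ⟨hom Γ0 τ hτ hadj R n k.1, ⟨k.1, k.2, rfl⟩, fun v => ?_⟩
      show c'.1 v = c'.1 (pm τ (k⁻¹ : KK R n).1 (pm τ k.1 v))
      rw [← pm_mul τ hτ]
      show c'.1 v = c'.1 (pm τ (k.1⁻¹ * k.1) v)
      rw [inv_mul_cancel, pm_one]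
  have hfix : ∀ k : KK R n, Fintype.card (MulAction.fixedBy (Col (Big Γ0 R n) q) k) =
      Nat.card (FixC Γ0 τ R n q k.1) := by
    intro k
    rw [← Nat.card_eq_fintype_card]
    refine Nat.card_congr (Equiv.subtypeEquivRight fun c => ?_)
    show k • c = c ↔ _
    constructor
    · intro h v
      have := congrArg (fun d : Col (Big Γ0 R n) q => d.1 (pm τ k.1 v)) h
      have h2 : c.1 (pm τ (k⁻¹ : KK R n).1 (pm τ k.1 v)) = c.1 (pm τ k.1 v) := this
      rw [← pm_mul τ hτ] at h2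
      have h3 : c.1 (pm τ (k.1⁻¹ * k.1) v) = c.1 (pm τ k.1 v) := h2
      rw [inv_mul_cancel, pm_one] at h3
      exact h3.symm
    · intro h
      apply Subtype.ext
      funext v
      show c.1 (pm τ (k⁻¹ : KK R n).1 v) = c.1 v
      rw [← h (pm τ (k⁻¹ : KK R n).1 v), ← pm_mul τ hτ]
      show c.1 (pm τ (k.1 * k.1⁻¹) v) = c.1 v
      rw [mul_inv_cancel, pm_one]
  rw [Nat.card_congr e, Nat.card_eq_fintype_card, Nat.card_eq_fintype_card]
  have hB' : ((Fintype.card (Quotient (MulAction.orbitRel (KK R n) (Col (Big Γ0 R n) q))) *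
      Fintype.card (KK R n) : ℕ) : ℝ) = ((∑ k : KK R n, Nat.card (FixC Γ0 τ R n q k.1) : ℕ) : ℝ) := by
    rw [← hB]
    congr 1
    exact Finset.sum_congr rfl fun k _ => hfix k
  rw [Nat.cast_mul] at hB'
  rw [hB']
  -- sum over the group
  have h1 : (∑ k : KK R n, Nat.card (FixC Γ0 τ R n q k.1)) =
      ∑ k ∈ Finset.univ.filter (fun k : ℤˣ × (Fin R → Perm (Fin n)) => ∀ i, sign (k.2 i) = k.1),
        Nat.card (FixC Γ0 τ R n q k) := by
    symm
    exact Finset.sum_subtype _ (fun x => by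
      rw [Finset.mem_filter]
      exact ⟨fun h => h.2, fun h => ⟨Finset.mem_univ _, h⟩⟩) _
  rw [h1, Finset.sum_filter, Fintype.sum_prod_type]
  push_cast
  refine Finset.sum_congr rfl fun h _ => ?_
  have h2 : ∀ σ : Fin R → Perm (Fin n), (if (∀ i, sign (σ i) = h) then
      (Nat.card (FixC Γ0 τ R n q (h, σ)) : ℝ) else 0) =
      (Nat.card (Fix0 Γ0 τ q h) : ℝ) * ∏ i, (if sign (σ i) = h then (Nat.card (FixF (σ i) q) : ℝ) else 0) := by
    intro σ
    split_ifs with hs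
    · rw [card_FixC]
      push_cast
      congr 1
      refine Finset.prod_congr rfl fun i _ => ?_
      rw [if_pos (hs i)]
    · push Not at hs
      obtain ⟨i, hi⟩ := hs
      rw [Finset.prod_eq_zero (Finset.mem_univ i) (if_neg hi), mul_zero]
  rw [Finset.sum_congr rfl fun σ _ => h2 σ, ← Finset.mul_sum]
  congr 1
  rw [SP_eval_nat]
  have h3 : ∑ σ ∈ Finset.univ.filter (fun σ : Perm (Fin n) => sign σ = h), (Nat.card (FixF σ q) : ℝ) =
      ∑ σ : Perm (Fin n), if sign σ = h then (Nat.card (FixF σ q) : ℝ) else 0 := by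
    rw [Finset.sum_filter]
  rw [h3]
  have h4 := Finset.prod_univ_sum (fun _ : Fin R => (Finset.univ : Finset (Perm (Fin n))))
    (fun _ σ => if sign σ = h then (Nat.card (FixF σ q) : ℝ) else 0)
  rw [Finset.prod_const, Finset.card_univ, Fintype.card_fin, Fintype.piFinset_univ] at h4
  rw [h4]

end

end Pool.Agent.Q280.Orb
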