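import Mathlib
import Pool.Agent.Q280.Orb.Amp
set_option autoImplicit false

/-! The core graph: a crown graph whose two sides are joined to independent sets. -/

namespace Pool.Agent.Q280.Orb
open Polynomial

/-- the core graph -/
def Core (m M : ℕ) : SimpleGraph (Bool × (Fin m ⊕ Fin M)) where
  Adj p p' := match p.2, p'.2 with
    | Sum.inl i, Sum.inl j => p.1 ≠ p'.1 ∧ i ≠ j
    | Sum.inl _, Sum.inr _ => p.1 = p'.1
    | Sum.inr _, Sum.inl _ => p.1 = p'.1
    | Sum.inr _, Sum.inr _ => False
  symm := ⟨by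
    rintro ⟨s, i | w⟩ ⟨t, j | z⟩ h
    · exact ⟨h.1.symm, h.2.symm⟩
    · exact Eq.symm h
    · exact Eq.symm h
    · exact h⟩
  loopless := ⟨by
    rintro ⟨s, i | w⟩ h
    · exact h.1 rfl
    · exact h⟩

/-- the involution -/
def tau {m M : ℕ} (p : Bool × (Fin m ⊕ Fin M)) : Bool × (Fin m ⊕ Fin M) := (!p.1, p.2)

theorem tau_tau {m M : ℕ} (p : Bool × (Fin m ⊕ Fin M)) : tau (tau p) = p := by
  rcases p with ⟨s, x⟩
  show (!(!s), x) = (s, x)
  rw [Bool.not_not]

theorem tau_adj {m M : ℕ} (p p' : Bool × (Fin m ⊕ Fin M)) :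
    (Core m M).Adj (tau p) (tau p') ↔ (Core m M).Adj p p' := by
  rcases p with ⟨s, i | w⟩ <;> rcases p' with ⟨t, j | z⟩
  · show ((!s) ≠ (!t) ∧ i ≠ j) ↔ (s ≠ t ∧ i ≠ j)
    rcases s <;> rcases t <;> simp
  · show (!s) = (!t) ↔ s = t
    rcases s <;> rcases t <;> simp
  · show (!s) = (!t) ↔ s = t
    rcases s <;> rcases t <;> simp
  · rfl

/-- no class contains two adjacent vertices of the crown -/
def Adm {m : ℕ} (r : Setoid (Bool × Fin m)) : Prop :=
  ∀ s t i j, s ≠ t → i ≠ j → ¬ r (s, i) (t, j)

/-- number of classes that meet side `s` -/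
noncomputable def kk {m : ℕ} (r : Setoid (Bool × Fin m)) (s : Bool) : ℕ :=
  (Set.range fun i : Fin m => (Quotient.mk r (s, i))).ncard

theorem ncard_range {m q : ℕ} (c : Bool × Fin m → Fin q) (s : Bool) :
    (Set.range fun i : Fin m => c (s, i)).ncard = kk (Setoid.ker c) s := by
  unfold kk
  have h : (Set.range fun i : Fin m => c (s, i)) =
      (Quotient.lift c (fun a b h => h) : Quotient (Setoid.ker c) → Fin q) ''
        (Set.range fun i : Fin m => (Quotient.mk (Setoid.ker c) (s, i))) := by
    rw [← Set.range_comp]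
    rfl
  rw [h]
  refine Set.ncard_image_of_injective _ ?_
  intro x y hxy
  induction x using Quotient.inductionOn with
  | h a => induction y using Quotient.inductionOn with
    | h b => exact Quotient.sound hxy

/-- splitting of the colourings of the core -/
def splitCore (m M q : ℕ) : Col (Core m M) q ≃
    Σ c : {c : Bool × Fin m → Fin q // Adm (Setoid.ker c)},
      (s : Bool) → Fin M → {x : Fin q // x ∉ Set.range fun i : Fin m => c.1 (s, i)} where
  toFun C := ⟨⟨fun p => C.1 (p.1, Sum.inl p.2), fun s t i j hst hij h =>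
      C.2 (s, Sum.inl i) (t, Sum.inl j) ⟨hst, hij⟩ h⟩,
    fun s w => ⟨C.1 (s, Sum.inr w), by
      rintro ⟨i, hi⟩
      exact C.2 (s, Sum.inl i) (s, Sum.inr w) rfl hi⟩⟩
  invFun D := ⟨fun p => Sum.elim (fun i => D.1.1 (p.1, i)) (fun w => (D.2 p.1 w).1) p.2, by
    rintro ⟨s, i | w⟩ ⟨t, j | z⟩ h
    · exact D.1.2 s t i j h.1 h.2
    · have h' : s = t := h
      subst h'
      intro h2
      exact (D.2 s z).2 ⟨i, h2⟩
    · have h' : s = t := h
      subst h'
      intro h2
      exact (D.2 s w).2 ⟨j, h2.symm⟩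
    · exact h.elim⟩
  left_inv C := by
    apply Subtype.ext
    funext p
    rcases p with ⟨s, i | w⟩ <;> rfl
  right_inv D := by
    rcases D with ⟨⟨c, hc⟩, d⟩
    rfl

theorem card_not_range {m q : ℕ} (c : Bool × Fin m → Fin q) (s : Bool) :
    (Nat.card {x : Fin q // x ∉ Set.range fun i : Fin m => c (s, i)} : ℝ) =
      (q : ℝ) - kk (Setoid.ker c) s := by
  have h1 : Nat.card {x : Fin q // x ∉ Set.range fun i : Fin m => c (s, i)} =
      ((Set.range fun i : Fin m => c (s, i))ᶜ).ncard := rfl
  have h2 := Set.ncard_add_ncard_compl (Set.range fun i : Fin m => c (s, i))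
  rw [Nat.card_eq_fintype_card, Fintype.card_fin] at h2
  rw [h1, ← ncard_range c s]
  have h3 := congrArg (fun z : ℕ => (z : ℝ)) h2
  push_cast at h3
  linarith

open Classical in
theorem card_core (m M q : ℕ) : (Nat.card (Col (Core m M) q) : ℝ) =
    ∑ c : Bool × Fin m → Fin q, if Adm (Setoid.ker c) then
      ∏ s : Bool, ((q : ℝ) - kk (Setoid.ker c) s) ^ M else 0 := by
  rw [Nat.card_congr (splitCore m M q), Nat.card_sigma]
  push_cast
  rw [← Finset.sum_filter]
  rw [Finset.sum_subtype (Finset.univ.filter fun c : Bool × Fin m → Fin q => Adm (Setoid.ker c))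
    (p := fun c => Adm (Setoid.ker c)) (fun x => by simp)
    (fun c => ∏ s : Bool, ((q : ℝ) - kk (Setoid.ker c) s) ^ M)]
  refine Finset.sum_congr rfl fun c _ => ?_
  rw [Nat.card_pi]
  push_cast
  refine Finset.prod_congr rfl fun s _ => ?_
  rw [Nat.card_pi]
  push_cast
  rw [Finset.prod_const, Finset.card_univ, Fintype.card_fin, card_not_range]

/-- functions with a given kernel -/
noncomputable def kerEquiv {U : Type} (q : ℕ) (r : Setoid U) :
    {c : U → Fin q // Setoid.ker c = r} ≃ (Quotient r ↪ Fin q) where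
  toFun c := ⟨Quotient.lift c.1 (fun a b h => by
      have h' : (Setoid.ker c.1) a b := by rw [c.2]; exact h
      exact h'), by
    intro x y hxy
    induction x using Quotient.inductionOn with
    | h a => induction y using Quotient.inductionOn with
      | h b =>
        have h' : (Setoid.ker c.1) a b := hxy
        rw [c.2] at h'
        exact Quotient.sound h'⟩
  invFun e := ⟨fun u => e (Quotient.mk r u), by
    ext a b
    show e (Quotient.mk r a) = e (Quotient.mk r b) ↔ r a b
    rw [e.injective.eq_iff]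
    exact Quotient.eq⟩
  left_inv c := by
    apply Subtype.ext
    rfl
  right_inv e := by
    ext x
    induction x using Quotient.inductionOn with
    | h a => rfl

noncomputable instance {U : Type} [Finite U] : Fintype (Setoid U) := by
  classical
  have : Finite (Setoid U) := Finite.of_injective (fun r : Setoid U => fun a b => r a b) (by
    intro r r' h
    ext a b
    exact iff_of_eq (congrFun (congrFun h a) b))
  exact Fintype.ofFinite _

theorem sum_ker {U : Type} [Fintype U] [DecidableEq U] (q : ℕ) (F : Setoid U → ℝ) :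
    ∑ c : U → Fin q, F (Setoid.ker c) =
      ∑ r : Setoid U, (q.descFactorial (Nat.card (Quotient r)) : ℝ) * F r := by
  classical
  rw [← Finset.sum_fiberwise (s := (Finset.univ : Finset (U → Fin q))) (g := fun c => Setoid.ker c)
    (f := fun c => F (Setoid.ker c))]
  refine Finset.sum_congr rfl fun r _ => ?_
  have h1 : ∀ c ∈ Finset.univ.filter (fun c : U → Fin q => Setoid.ker c = r), F (Setoid.ker c) = F r := by
    intro c hc
    rw [(Finset.mem_filter.1 hc).2]
  rw [Finset.sum_congr rfl h1, Finset.sum_const, nsmul_eq_mul]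
  congr 1
  have h2 : (Finset.univ.filter (fun c : U → Fin q => Setoid.ker c = r)).card =
      Nat.card {c : U → Fin q // Setoid.ker c = r} := by
    rw [Nat.card_eq_fintype_card, Fintype.card_subtype]
  have : Fintype (Quotient r) := Fintype.ofFinite _
  rw [h2, Nat.card_congr (kerEquiv q r), Nat.card_eq_fintype_card, Fintype.card_embedding_eq,
    Fintype.card_fin, Nat.card_eq_fintype_card]

open Classical in
/-- the chromatic polynomial of the core -/
noncomputable def P0 (m M : ℕ) : ℝ[X] :=
  ∑ r : Setoid (Bool × Fin m), if Adm r then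
    descPochhammer ℝ (Nat.card (Quotient r)) * ∏ s : Bool, (X - C (kk r s : ℝ)) ^ M else 0

theorem P0_eval (m M : ℕ) (x : ℝ) : (P0 m M).eval x = 
    open Classical in ∑ r : Setoid (Bool × Fin m), if Adm r then
    (descPochhammer ℝ (Nat.card (Quotient r))).eval x * ∏ s : Bool, (x - (kk r s : ℝ)) ^ M else 0 := by
  classical
  unfold P0
  rw [eval_finsetSum]
  refine Finset.sum_congr rfl fun r _ => ?_
  split_ifs
  · rw [eval_mul, eval_prod]
    simp
  · simp

theorem P0_nat (m M q : ℕ) : (P0 m M).eval (q : ℝ) = (Nat.card (Col (Core m M) q) : ℝ) := by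
  classical
  rw [card_core, P0_eval]
  have h := sum_ker (U := Bool × Fin m) q (fun r => if Adm r then ∏ s : Bool, ((q : ℝ) - kk r s) ^ M else 0)
  rw [h]
  refine Finset.sum_congr rfl fun r _ => ?_
  rw [descPochhammer_eval_eq_descFactorial]
  split_ifs <;> simp

/-- splitting of the symmetric colourings -/
def splitTau (m M q : ℕ) : Fix0 (Core m M) (tau (m := m) (M := M)) q (-1) ≃
    Σ f : (Fin m ↪ Fin q), Fin M → {x : Fin q // x ∉ Set.range f} where
  toFun C := ⟨⟨fun i => C.1.1 (true, Sum.inl i), by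
      intro i j hij
      by_contra hne
      have h1 := C.2 (true, Sum.inl j)
      have h2 : C.1.1 (false, Sum.inl j) = C.1.1 (true, Sum.inl j) := h1
      refine C.1.2 (true, Sum.inl i) (false, Sum.inl j) ⟨Bool.noConfusion, hne⟩ ?_
      rw [h2]
      exact hij⟩,
    fun w => ⟨C.1.1 (true, Sum.inr w), by
      rintro ⟨i, hi⟩
      exact C.1.2 (true, Sum.inl i) (true, Sum.inr w) rfl hi⟩⟩
  invFun D := ⟨⟨fun p => Sum.elim (fun i => D.1 i) (fun w => (D.2 w).1) p.2, by
    rintro ⟨s, i | w⟩ ⟨t, j | z⟩ h
    · exact fun h2 => h.2 (D.1.injective h2)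
    · intro h2
      exact (D.2 z).2 ⟨i, h2⟩
    · intro h2
      exact (D.2 w).2 ⟨j, h2.symm⟩
    · exact h.elim⟩, by
    rintro ⟨s, i | w⟩ <;> rfl⟩
  left_inv C := by
    apply Subtype.ext
    apply Subtype.ext
    funext p
    rcases p with ⟨s, i | w⟩
    · rcases s
      · exact (C.2 (false, Sum.inl i))
      · rfl
    · rcases s
      · exact (C.2 (false, Sum.inr w))
      · rfl
  right_inv D := by
    rcases D with ⟨f, d⟩
    rfl

theorem card_tau (m M q : ℕ) : (Nat.card (Fix0 (Core m M) (tau (m := m) (M := M)) q (-1)) : ℝ) =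
    (descPochhammer ℝ m * (X - C (m : ℝ)) ^ M).eval (q : ℝ) := by
  classical
  rw [Nat.card_congr (splitTau m M q), Nat.card_sigma]
  push_cast
  have h1 : ∀ f : Fin m ↪ Fin q, (Nat.card (Fin M → {x : Fin q // x ∉ Set.range f}) : ℝ) =
      ((q : ℝ) - m) ^ M := by
    intro f
    rw [Nat.card_pi]
    push_cast
    rw [Finset.prod_const, Finset.card_univ, Fintype.card_fin]
    congr 1
    have h2 : Nat.card {x : Fin q // x ∉ Set.range f} = ((Set.range f)ᶜ).ncard := rfl
    have h3 := Set.ncard_add_ncard_compl (Set.range f)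
    rw [Nat.card_eq_fintype_card, Fintype.card_fin] at h3
    have h4 : (Set.range f).ncard = m := by
      rw [← Set.image_univ, Set.ncard_image_of_injective _ f.injective, Set.ncard_univ,
        Nat.card_eq_fintype_card, Fintype.card_fin]
    rw [h4] at h3
    rw [h2]
    have h5 := congrArg (fun z : ℕ => (z : ℝ)) h3
    push_cast at h5
    linarith
  rw [Finset.sum_congr rfl fun f _ => h1 f, Finset.sum_const, nsmul_eq_mul, Finset.card_univ,
    Fintype.card_embedding_eq, Fintype.card_fin, Fintype.card_fin, eval_mul,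
    descPochhammer_eval_eq_descFactorial]
  simp

end Pool.Agent.Q280.Orb
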