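import Mathlib
import Pool.Agent.Q280.Orb.Core
set_option autoImplicit false

/-! Positivity of the chromatic polynomial of the core. -/

namespace Pool.Agent.Q280.Orb
open Polynomial

/-- the partition of the crown into its two sides -/
def r1 (m : ℕ) : Setoid (Bool × Fin m) := Setoid.ker Prod.fst

theorem adm_r1 (m : ℕ) : Adm (r1 m) := by
  intro s t i j hst _ h
  exact hst h

theorem kk_r1 {m : ℕ} (hm : 0 < m) (s : Bool) : kk (r1 m) s = 1 := by
  unfold kk
  rw [Set.ncard_eq_one]
  refine ⟨Quotient.mk _ (s, ⟨0, hm⟩), ?_⟩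
  ext x
  constructor
  · rintro ⟨i, rfl⟩
    exact Quotient.sound rfl
  · rintro rfl
    exact ⟨⟨0, hm⟩, rfl⟩

theorem card_r1 {m : ℕ} (hm : 0 < m) : Nat.card (Quotient (r1 m)) = 2 := by
  have e : Quotient (r1 m) ≃ Bool :=
    { toFun := Quotient.lift Prod.fst (fun a b h => h)
      invFun := fun s => Quotient.mk _ (s, ⟨0, hm⟩)
      left_inv := fun x => by
        induction x using Quotient.inductionOn with
        | h a => exact Quotient.sound rfl
      right_inv := fun s => rfl }
  rw [Nat.card_congr e]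
  simp

theorem kk_pos {m : ℕ} (hm : 0 < m) (r : Setoid (Bool × Fin m)) (s : Bool) : 1 ≤ kk r s := by
  unfold kk
  rw [Nat.one_le_iff_ne_zero, Ne, Set.ncard_eq_zero]
  exact Set.Nonempty.ne_empty ⟨_, ⟨⟨0, hm⟩, rfl⟩⟩

theorem kk_le {m : ℕ} (r : Setoid (Bool × Fin m)) (s : Bool) : kk r s ≤ m := by
  unfold kk
  rw [← Set.image_univ]
  refine (Set.ncard_image_le Set.finite_univ).trans ?_
  rw [Set.ncard_univ, Nat.card_eq_fintype_card, Fintype.card_fin]

theorem card_le {m : ℕ} (r : Setoid (Bool × Fin m)) : Nat.card (Quotient r) ≤ 2 * m := by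
  have h := Nat.card_le_card_of_surjective (Quotient.mk r) Quotient.mk_surjective
  refine h.trans (le_of_eq ?_)
  rw [Nat.card_prod]
  simp

theorem eq_r1 {m : ℕ} (hm : 2 ≤ m) (r : Setoid (Bool × Fin m)) (hr : Adm r)
    (h : ∀ s, kk r s ≤ 1) : r = r1 m := by
  have h1 : ∀ s (i j : Fin m), r (s, i) (s, j) := by
    intro s i j
    have := (Set.ncard_le_one_iff (s := Set.range fun i : Fin m => (Quotient.mk r (s, i)))).1 (h s)
      ⟨i, rfl⟩ ⟨j, rfl⟩
    exact Quotient.exact this
  ext ⟨s, i⟩ ⟨t, j⟩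
  constructor
  · intro h2
    by_contra hst
    have hst' : s ≠ t := hst
    have hex : ∃ k : Fin m, i ≠ k := by
      by_contra hcon
      push Not at hcon
      have ha := hcon ⟨0, by omega⟩
      have hb := hcon ⟨1, by omega⟩
      have := ha.symm.trans hb
      simp at this
    obtain ⟨k, hk⟩ := hex
    exact hr s t i k hst' hk (r.trans h2 (h1 t j k))
  · intro h2
    have h3 : s = t := h2
    subst h3
    exact h1 s i j

theorem desc_abs {x b : ℝ} (h0 : 0 ≤ x) (k n : ℕ) (hk : k ≤ n) (hb : x ≤ b) (hn : (n : ℝ) ≤ b) (hb1 : 1 ≤ b) :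
    |(descPochhammer ℝ k).eval x| ≤ b ^ n := by
  rw [descPochhammer_eval_eq_prod_range, Finset.abs_prod]
  have h1 : ∏ j ∈ Finset.range k, |x - j| ≤ ∏ j ∈ Finset.range k, b := by
    refine Finset.prod_le_prod (fun _ _ => abs_nonneg _) fun j hj => ?_
    have hj1 : (j : ℝ) ≤ n := by
      have := Finset.mem_range.1 hj
      exact_mod_cast (by omega : j ≤ n)
    have hj0 : (0 : ℝ) ≤ j := Nat.cast_nonneg j
    rw [abs_le]
    constructor <;> linarith
  refine h1.trans ?_
  rw [Finset.prod_const, Finset.card_range]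
  exact pow_le_pow_right₀ hb1 hk

theorem pos_core (L : ℕ) (hL : 1 ≤ L) : ∃ M : ℕ, Even M ∧ ∀ x : ℝ, (L : ℝ) + 2 ≤ x →
    0 < (P0 (2 * L + 2) M).eval x := by
  classical
  set m : ℕ := 2 * L + 2 with hm
  have hm2 : 2 ≤ m := by omega
  have hm0 : 0 < m := by omega
  set b : ℝ := 2 * m with hb
  have hmR : (m : ℝ) = 2 * L + 2 := by rw [hm]; push_cast; ring
  have hLR : (1 : ℝ) ≤ L := by exact_mod_cast hL
  have hb1 : 1 ≤ b := by rw [hb, hmR]; linarith
  set K : ℝ := (Fintype.card (Setoid (Bool × Fin m)) : ℝ) * b ^ (2 * m) + 1 with hK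
  have hK0 : 0 < K := by positivity
  set ρ : ℝ := (b - 2) / (b - 1) with hρ
  have hb11 : 0 < b - 1 := by rw [hb, hmR]; linarith
  have hρ0 : 0 ≤ ρ := div_nonneg (by rw [hb, hmR]; linarith) hb11.le
  have hρ1 : ρ < 1 := by rw [hρ, div_lt_one hb11]; linarith
  obtain ⟨M', hM'⟩ := exists_pow_lt_of_lt_one (show (0:ℝ) < 1 / K by positivity) hρ1
  refine ⟨2 * M', even_two_mul M', fun x hx => ?_⟩
  set M : ℕ := 2 * M' with hM
  have hρM : K * ρ ^ M < 1 := by
    have h1 : ρ ^ M ≤ ρ ^ M' := pow_le_pow_of_le_one hρ0 hρ1.le (by omega)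
    calc K * ρ ^ M ≤ K * ρ ^ M' := by gcongr
      _ < K * (1 / K) := by gcongr
      _ = 1 := by field_simp
  rw [P0_eval]
  have hT1 : (descPochhammer ℝ (Nat.card (Quotient (r1 m)))).eval x *
      ∏ s : Bool, (x - (kk (r1 m) s : ℝ)) ^ M = (x * (x - 1)) * ((x - 1) ^ M * (x - 1) ^ M) := by
    rw [card_r1 hm0, descPochhammer_eval_eq_prod_range, Fintype.prod_bool, kk_r1 hm0, kk_r1 hm0,
      Finset.prod_range_succ, Finset.prod_range_succ, Finset.prod_range_zero]
    push_cast
    ring
  by_cases hxb : b ≤ x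
  · -- all terms are nonnegative
    refine Finset.sum_pos' (fun r _ => ?_) ⟨r1 m, Finset.mem_univ _, ?_⟩
    · split_ifs
      · refine mul_nonneg ?_ (Finset.prod_nonneg fun s _ => ?_)
        · rw [descPochhammer_eval_eq_prod_range]
          refine Finset.prod_nonneg fun j hj => ?_
          have h1 := card_le r
          have h2 : (j : ℝ) ≤ 2 * m := by
            have := Finset.mem_range.1 hj
            exact_mod_cast (by omega : j ≤ 2 * m)
          rw [hb] at hxb
          linarith
        · refine pow_nonneg ?_ _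
          have h1 : (kk r s : ℝ) ≤ m := by exact_mod_cast kk_le r s
          have h2 : (0:ℝ) ≤ m := Nat.cast_nonneg m
          rw [hb] at hxb
          linarith
      · exact le_rfl
    · rw [if_pos (adm_r1 m), hT1]
      have h1 : 0 < x - 1 := by linarith
      have h2 : 0 < x := by linarith
      positivity
  · push Not at hxb
    rw [← Finset.add_sum_erase _ _ (Finset.mem_univ (r1 m)), if_pos (adm_r1 m), hT1]
    have hx1 : 0 < x - 1 := by linarith
    have hx2 : 0 ≤ x - 2 := by linarith
    have hx0 : 0 ≤ x := by linarith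
    have hterm : ∀ r ∈ Finset.univ.erase (r1 m), |(if Adm r then
        (descPochhammer ℝ (Nat.card (Quotient r))).eval x * ∏ s : Bool, (x - (kk r s : ℝ)) ^ M else 0)| ≤
        b ^ (2 * m) * ((x - 1) ^ M * (x - 2) ^ M) := by
      intro r hr
      have hne : r ≠ r1 m := (Finset.mem_erase.1 hr).1
      split_ifs with hadm
      · rw [abs_mul]
        refine mul_le_mul ?_ ?_ (abs_nonneg _) (by positivity)
        · refine desc_abs hx0 _ _ (card_le r) hxb.le ?_ hb1
          rw [hb]; push_cast; exact le_rfl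
        · have hle1 : ∀ s, |x - (kk r s : ℝ)| ≤ x - 1 := by
            intro s
            have h1 : (1 : ℝ) ≤ kk r s := by exact_mod_cast kk_pos hm0 r s
            have h2 : (kk r s : ℝ) ≤ m := by exact_mod_cast kk_le r s
            rw [abs_le]
            constructor <;> linarith
          have hle2 : ∀ s, 2 ≤ kk r s → |x - (kk r s : ℝ)| ≤ x - 2 := by
            intro s hs
            have h1 : (2 : ℝ) ≤ kk r s := by exact_mod_cast hs
            have h2 : (kk r s : ℝ) ≤ m := by exact_mod_cast kk_le r s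
            rw [abs_le]
            constructor <;> linarith
          have hex : ∃ s, 2 ≤ kk r s := by
            by_contra hcon
            push Not at hcon
            exact hne (eq_r1 hm2 r hadm fun s => by have := hcon s; omega)
          obtain ⟨s, hs⟩ := hex
          rw [Fintype.prod_bool, abs_mul, abs_pow, abs_pow]
          rcases s
          · refine mul_le_mul (pow_le_pow_left₀ (abs_nonneg _) (hle1 true) M)
              (pow_le_pow_left₀ (abs_nonneg _) (hle2 false hs) M) (by positivity) (by positivity)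
          · rw [mul_comm]
            refine mul_le_mul (pow_le_pow_left₀ (abs_nonneg _) (hle1 false) M)
              (pow_le_pow_left₀ (abs_nonneg _) (hle2 true hs) M) (by positivity) (by positivity)
      · rw [abs_zero]
        have := pow_nonneg hx2 M
        positivity
    have hsum := Finset.abs_sum_le_sum_abs (fun r : Setoid (Bool × Fin m) => (if Adm r then
        (descPochhammer ℝ (Nat.card (Quotient r))).eval x * ∏ s : Bool, (x - (kk r s : ℝ)) ^ M else 0))
        (Finset.univ.erase (r1 m))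
    have hsum2 := hsum.trans (Finset.sum_le_sum hterm)
    rw [Finset.sum_const, nsmul_eq_mul] at hsum2
    have hcard : ((Finset.univ.erase (r1 m)).card : ℝ) ≤ Fintype.card (Setoid (Bool × Fin m)) := by
      exact_mod_cast Finset.card_le_univ _
    have hpm : 0 ≤ (x - 2) ^ M := pow_nonneg hx2 M
    have hpm1 : 0 < (x - 1) ^ M := pow_pos hx1 M
    have hsum3 : |∑ r ∈ Finset.univ.erase (r1 m), (if Adm r then
        (descPochhammer ℝ (Nat.card (Quotient r))).eval x * ∏ s : Bool, (x - (kk r s : ℝ)) ^ M else 0)| ≤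
        K * ((x - 1) ^ M * (x - 2) ^ M) := by
      refine hsum2.trans ?_
      have h1 : ((Finset.univ.erase (r1 m)).card : ℝ) * (b ^ (2 * m) * ((x - 1) ^ M * (x - 2) ^ M)) ≤
          (Fintype.card (Setoid (Bool × Fin m)) : ℝ) * (b ^ (2 * m) * ((x - 1) ^ M * (x - 2) ^ M)) :=
        mul_le_mul_of_nonneg_right hcard (by positivity)
      refine h1.trans ?_
      rw [hK]
      have h2 : 0 ≤ (x - 1) ^ M * (x - 2) ^ M := by positivity
      nlinarith
    have hratio : (x - 2) ^ M ≤ ρ ^ M * (x - 1) ^ M := by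
      rw [← mul_pow]
      refine pow_le_pow_left₀ hx2 ?_ M
      rw [hρ, div_mul_eq_mul_div, le_div_iff₀ hb11]
      nlinarith
    have h5 : K * ((x - 1) ^ M * (x - 2) ^ M) < (x - 1) ^ M * (x - 1) ^ M := by
      have h6 : K * (x - 2) ^ M < (x - 1) ^ M := by
        calc K * (x - 2) ^ M ≤ K * (ρ ^ M * (x - 1) ^ M) := by gcongr
          _ = (K * ρ ^ M) * (x - 1) ^ M := by ring
          _ < 1 * (x - 1) ^ M := by gcongr
          _ = (x - 1) ^ M := one_mul _
      calc K * ((x - 1) ^ M * (x - 2) ^ M) = (x - 1) ^ M * (K * (x - 2) ^ M) := by ring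
        _ < (x - 1) ^ M * (x - 1) ^ M := by gcongr
    have h7 : (x - 1) ^ M * (x - 1) ^ M ≤ x * (x - 1) * ((x - 1) ^ M * (x - 1) ^ M) := by
      have h8 : 1 ≤ x * (x - 1) := by nlinarith
      have h9 : 0 < (x - 1) ^ M * (x - 1) ^ M := by positivity
      nlinarith
    have h10 := (abs_le.1 hsum3).1
    linarith

end Pool.Agent.Q280.Orb
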